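import Pool.Agent.THX.Stmts

/-!
# Module DSQ: the square of the Jacobian determinant is an integer
-/

namespace Pool.Agent.Helper26_THX

open NumberField Module Polynomial Pool.Agent.THX

/-- DSQ. -/
theorem dsq (hT : TrcStmt) : DsqStmt := by
  intro n r P K _ _ e x
  have key : ∀ a b : Fin n × Fin r, ∃ T : ℤ,
      (jac P (fun t i => e t (x i : K)) * (jac P (fun t i => e t (x i : K))).transpose) a b
        = (T : ℂ) := by
    intro a b
    obtain ⟨T, hT'⟩ := hT n r (∑ j, MvPolynomial.pderiv j (P a) * MvPolynomial.pderiv j (P b))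
      K e x
    refine ⟨T, ?_⟩
    rw [← hT', Matrix.mul_apply, Fintype.sum_prod_type]
    refine Finset.sum_congr rfl fun t _ => ?_
    rw [map_sum]
    refine Finset.sum_congr rfl fun j _ => ?_
    rw [map_mul]
    rfl
  choose M hM using key
  refine ⟨(Matrix.of M).det, ?_⟩
  have h1 : jac P (fun t i => e t (x i : K)) * (jac P (fun t i => e t (x i : K))).transpose
      = (Matrix.of M).map (Int.castRingHom ℂ) := by
    ext a b
    rw [hM]
    rfl
  have h2 := congrArg Matrix.det h1
  rw [Matrix.det_mul, Matrix.det_transpose, ← RingHom.mapMatrix_apply, ← RingHom.map_det] at h2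
  rw [pow_two, h2]
  rfl

end Pool.Agent.Helper26_THX
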