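import Pool.Agent.THX.Stmts

/-!
# Module HER: Hermite interpolation on the cube
-/

namespace Pool.Agent.Helper26_THX

open NumberField Module Polynomial Pool.Agent.THX

/-- The linear factor. -/
noncomputable def ell {r : ℕ} (w : Fin r → Bool) (k : Fin r) : MvPolynomial (Fin r) ℤ :=
  if w k then MvPolynomial.X k else 1 - MvPolynomial.X k

/-- The value of a vertex. -/
def bz (b : Bool) : ℤ := if b then 1 else 0

theorem eval_ell {r : ℕ} (w v : Fin r → Bool) (k : Fin r) :
    MvPolynomial.eval (fun i => bz (v i)) (ell w k) = if w k = v k then 1 else 0 := by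
  unfold ell bz
  cases hw : w k <;> cases hv : v k <;> simp [hv]

theorem deg_ell {r : ℕ} (w : Fin r → Bool) (k : Fin r) : (ell w k).totalDegree ≤ 1 := by
  unfold ell
  split_ifs
  · rw [MvPolynomial.totalDegree_X]
  · refine (MvPolynomial.totalDegree_sub _ _).trans ?_
    rw [MvPolynomial.totalDegree_X, MvPolynomial.totalDegree_one]
    decide

/-- HER. -/
theorem her : HerStmt := by
  intro n r hn
  obtain ⟨f⟩ : Nonempty (Fin n ↪ (Fin r → Bool)) := by
    apply Function.Embedding.nonempty_of_card_le
    simpa using hn
  refine ⟨fun a => (MvPolynomial.X a.2 - MvPolynomial.C (bz (f a.1 a.2))) *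
    (∏ k, ell (f a.1) k) ^ 2, fun t i => bz (f t i), ?_, ?_⟩
  · intro a
    refine (MvPolynomial.totalDegree_mul _ _).trans ?_
    have h1 : (MvPolynomial.X a.2 - MvPolynomial.C (bz (f a.1 a.2)) :
        MvPolynomial (Fin r) ℤ).totalDegree ≤ 1 := by
      refine (MvPolynomial.totalDegree_sub _ _).trans ?_
      rw [MvPolynomial.totalDegree_X, MvPolynomial.totalDegree_C]
      decide
    have h2 : ((∏ k, ell (f a.1) k) ^ 2).totalDegree ≤ 2 * r := by
      refine (MvPolynomial.totalDegree_pow _ _).trans ?_
      refine Nat.mul_le_mul_left 2 ?_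
      refine (MvPolynomial.totalDegree_finsetProd _ _).trans ?_
      refine (Finset.sum_le_sum fun k _ => deg_ell (f a.1) k).trans ?_
      simp
    omega
  · rintro ⟨s, i⟩ t j
    have hB : ∀ t : Fin n, MvPolynomial.eval (fun i => bz (f t i)) (∏ k, ell (f s) k)
        = if s = t then 1 else 0 := by
      intro t
      rw [map_prod]
      by_cases h : s = t
      · subst h
        rw [if_pos rfl]
        refine Finset.prod_eq_one fun k _ => ?_
        rw [eval_ell, if_pos rfl]
      · rw [if_neg h]
        have : f s ≠ f t := fun h' => h (f.injective h')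
        obtain ⟨k, hk⟩ := Function.ne_iff.1 this
        refine Finset.prod_eq_zero (Finset.mem_univ k) ?_
        rw [eval_ell, if_neg hk]
    have hd : MvPolynomial.pderiv j ((MvPolynomial.X i - MvPolynomial.C (bz (f s i))) *
        (∏ k, ell (f s) k) ^ 2) = MvPolynomial.pderiv j (MvPolynomial.X i) *
          (∏ k, ell (f s) k) ^ 2 + (MvPolynomial.X i - MvPolynomial.C (bz (f s i))) *
          (2 * (∏ k, ell (f s) k) * MvPolynomial.pderiv j (∏ k, ell (f s) k)) := by
      rw [Derivation.leibniz, pow_two, Derivation.leibniz, map_sub, MvPolynomial.pderiv_C]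
      simp only [smul_eq_mul]
      ring
    show MvPolynomial.eval (fun i => bz (f t i)) (MvPolynomial.pderiv j
      ((MvPolynomial.X i - MvPolynomial.C (bz (f s i))) * (∏ k, ell (f s) k) ^ 2)) = _
    rw [hd]
    simp only [map_add, map_mul, map_pow, map_sub, hB, MvPolynomial.eval_X, MvPolynomial.eval_C,
      MvPolynomial.pderiv_X]
    by_cases h : s = t
    · subst h
      simp only [if_true, sub_self, zero_mul, add_zero, one_pow, mul_one]
      by_cases hij : i = j
      · subst hij
        simp
      · rw [Pi.single_eq_of_ne hij, if_neg (by simp [hij])]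
        simp
    · rw [if_neg h, if_neg (by simp [h])]
      ring

end Pool.Agent.Helper26_THX
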